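import Mathlib
import Pool.Agent.H43.Cube.Four

/-!
# Minimal covers, dissections and triangulations of the four-dimensional cube

All six numbers are equal to `16` in dimension four.
-/

set_option autoImplicit false

namespace Pool.Agent.Results.MP_f61dea_co.DimensionFour

open Pool.Agent.H43.Cube

/-- The least sizes of a cover, a cover by vertex simplices, a dissection, a dissection by vertex
simplices, a triangulation and a triangulation by vertex simplices of the four-dimensional cube
are all equal to `16`. -/
theorem result : numC 4 = 16 ∧ numCv 4 = 16 ∧ numD 4 = 16 ∧ numDv 4 = 16 ∧
    numT 4 = 16 ∧ numTv 4 = 16 :=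
  six_numbers_four

end Pool.Agent.Results.MP_f61dea_co.DimensionFour
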