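import Mathlib
import Pool.Agent.H43.Cube.Tab

/-!
# Lower bounds for covers of the cube by arbitrary simplices in dimensions five to twelve

The bounds hold for arbitrary covers, hence for each of the six numbers.
-/

set_option autoImplicit false

namespace Pool.Agent.Results.MP_f61dea_co.LowerBounds

open Pool.Agent.H43.Cube

/-- Every cover of the `d`-dimensional cube by simplices (arbitrary simplices, whose interiors
may overlap) has at least `61`, `258`, `1162`, `5265`, `23343`, `102793`, `521547`, `2845341`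
members for `d = 5, 6, 7, 8, 9, 10, 11, 12`. -/
theorem result :
    (∀ T : Finset (Finset (Fin 5 → ℝ)), IsCover 5 T → 61 ≤ T.card) ∧
    (∀ T : Finset (Finset (Fin 6 → ℝ)), IsCover 6 T → 258 ≤ T.card) ∧
    (∀ T : Finset (Finset (Fin 7 → ℝ)), IsCover 7 T → 1162 ≤ T.card) ∧
    (∀ T : Finset (Finset (Fin 8 → ℝ)), IsCover 8 T → 5265 ≤ T.card) ∧
    (∀ T : Finset (Finset (Fin 9 → ℝ)), IsCover 9 T → 23343 ≤ T.card) ∧
    (∀ T : Finset (Finset (Fin 10 → ℝ)), IsCover 10 T → 102793 ≤ T.card) ∧
    (∀ T : Finset (Finset (Fin 11 → ℝ)), IsCover 11 T → 521547 ≤ T.card) ∧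
    (∀ T : Finset (Finset (Fin 12 → ℝ)), IsCover 12 T → 2845341 ≤ T.card) :=
  ⟨fun _ h => cover_five h, fun _ h => cover_six h, fun _ h => cover_seven h,
    fun _ h => cover_eight h, fun _ h => cover_nine h, fun _ h => cover_ten h,
    fun _ h => cover_eleven h, fun _ h => cover_twelve h⟩

end Pool.Agent.Results.MP_f61dea_co.LowerBounds
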